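import Pool.Agent.Helper75.FU.StP

/-! Project FU, module P2: the Nakayama step for rows over `C(X)`. -/

set_option autoImplicit false

namespace Pool.Agent.Helper62.FU

open Polynomial Pool.Agent.Helper75.FU

universe u

theorem hP2 (hP1 : StP1.{u}) : StP2.{u} := by
  classical
  intro C _ _ n _ _ γ γ' hγ hm
  obtain ⟨y, -, h0, hadd, -, hmul, hmono, hconst, hdeg, hdiv, hstep, -, -⟩ := hP1 C
  have hsm : ∀ (c : C) (x : RX C), c • x = toRX C (Polynomial.C c) * x := by
    intro c x
    rw [Algebra.smul_def]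
    rfl
  have hSsmul : ∀ a b (c : C), ∀ x ∈ Sg C a b, c • x ∈ Sg C a b := by
    intro a b c x hx
    rw [hsm]
    exact hmono _ _ _ _ (by omega) _ (hmul 0 0 a b _ (hconst c) x hx)
  -- the submodule `Q`
  let Q : Submodule C (n → RX C) :=
    { carrier := {x | ∃ (a : n → C[X]) (σ : n → RX C), (∀ j, σ j ∈ Sg C 0 0) ∧
        x = (fun j => toRX C (a j)) + Matrix.vecMul σ γ'}
      add_mem' := by
        rintro x x' ⟨a, σ, hσ, rfl⟩ ⟨a', σ', hσ', rfl⟩
        refine ⟨a + a', σ + σ', fun j => hadd _ _ _ (hσ j) _ (hσ' j), ?_⟩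
        rw [Matrix.add_vecMul]
        ext j
        simp only [Pi.add_apply, map_add]
        ring
      zero_mem' := ⟨0, 0, fun j => h0 _ _, by
        ext j
        simp⟩
      smul_mem' := by
        rintro c x ⟨a, σ, hσ, rfl⟩
        refine ⟨fun j => Polynomial.C c * a j, c • σ, fun j => hSsmul _ _ c _ (hσ j), ?_⟩
        rw [Matrix.smul_vecMul, smul_add]
        congr 1
        ext j
        simp only [Pi.smul_apply, hsm, map_mul] }
  have hQmem : ∀ x : n → RX C, x ∈ Q ↔ ∃ (a : n → C[X]) (σ : n → RX C), (∀ j, σ j ∈ Sg C 0 0) ∧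
        x = (fun j => toRX C (a j)) + Matrix.vecMul σ γ' := fun x => Iff.rfl
  have hQpoly : ∀ a : n → C[X], (fun j => toRX C (a j)) ∈ Q := by
    intro a
    refine (hQmem _).2 ⟨a, 0, fun j => h0 _ _, ?_⟩
    rw [Matrix.zero_vecMul, add_zero]
  have hQsig : ∀ σ : n → RX C, (∀ j, σ j ∈ Sg C 0 0) → Matrix.vecMul σ γ' ∈ Q := by
    intro σ hσ
    refine (hQmem _).2 ⟨0, σ, hσ, ?_⟩
    ext j
    simp
  have hsum : ∀ (a b : ℕ) (s : Finset n) (f : n → RX C), (∀ i ∈ s, f i ∈ Sg C a b) →
      ∑ i ∈ s, f i ∈ Sg C a b := by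
    intro a b s f
    induction s using Finset.induction_on with
    | empty => intro _; simpa using h0 a b
    | insert i s hi ih =>
      intro hf
      rw [Finset.sum_insert hi]
      exact hadd _ _ _ (hf i (Finset.mem_insert_self _ _)) _
        (ih fun k hk => hf k (Finset.mem_insert_of_mem hk))
  -- step 1
  choose β hβ using fun i j => hdeg (γ i j)
  obtain ⟨t, ht⟩ : ∃ t : ℕ, ∀ i j, γ i j ∈ Sg C 0 t := by
    refine ⟨∑ i, ∑ j, β i j, fun i j => hmono _ _ _ _ ?_ _ (hβ i j)⟩
    have h1 : β i j ≤ ∑ j, β i j :=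
      Finset.single_le_sum (f := fun j => β i j) (fun _ _ => Nat.zero_le _) (Finset.mem_univ j)
    have h2 : ∑ j, β i j ≤ ∑ i, ∑ j, β i j :=
      Finset.single_le_sum (f := fun i => ∑ j, β i j) (fun _ _ => Nat.zero_le _)
        (Finset.mem_univ i)
    omega
  have hQsmall : ∀ ρ : n → RX C, (∀ j, ρ j ∈ Sg C (t + 1) 0) → ρ ∈ Q := by
    intro ρ hρ
    have h1 : Matrix.vecMul (Matrix.vecMul ρ γ) γ' = ρ := by
      rw [Matrix.vecMul_vecMul, hγ, Matrix.vecMul_one]
    rw [← h1]
    refine hQsig _ fun j => ?_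
    show ∑ i, ρ i * γ i j ∈ Sg C 0 0
    refine hsum 0 0 _ _ fun i _ => ?_
    exact hmono _ _ _ _ (by omega) _ (hmul _ _ _ _ _ (hρ i) _ (ht i j))
  -- step 2
  have hexp : ∀ (x : RX C) (k : ℕ), ∃ (q : C[X]) (c : ℕ → C), ∃ z ∈ Sg C (k + 1) 0,
      x = toRX C q + ∑ j ∈ Finset.range k, c j • y ^ (j + 1) + z := by
    intro x k
    induction k with
    | zero =>
      obtain ⟨q, z, hz, hx⟩ := hdiv x
      exact ⟨q, 0, z, hz, by simpa using hx⟩
    | succ k ih =>
      obtain ⟨q, c, z, hz, hx⟩ := ih
      obtain ⟨c₀, hc₀⟩ := hstep (k + 1) z hz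
      refine ⟨q, fun j => if j < k then c j else c₀, _, hc₀, ?_⟩
      rw [Finset.sum_range_succ]
      have h1 : ∑ j ∈ Finset.range k, (if j < k then c j else c₀) • y ^ (j + 1) =
          ∑ j ∈ Finset.range k, c j • y ^ (j + 1) := by
        refine Finset.sum_congr rfl fun j hj => ?_
        rw [if_pos (Finset.mem_range.1 hj)]
      have h2 : (fun j => if j < k then c j else c₀) k = c₀ := if_neg (lt_irrefl k)
      rw [h1, h2, hsm c₀, hx]
      ring
  let N : Submodule C (n → RX C) :=
    Submodule.span C (Set.range fun p : n × Fin t => (Pi.single p.1 (y ^ ((p.2 : ℕ) + 1)) : n → RX C))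
  have hNfg : N.FG := Submodule.fg_span (Set.finite_range _)
  have hsplit : ∀ x : n → RX C, x = ∑ i, Pi.single i (x i) := fun x =>
    (Finset.univ_sum_single x).symm
  have hQN : ∀ x : n → RX C, x ∈ Q ⊔ N := by
    intro x
    rw [hsplit x]
    refine Submodule.sum_mem _ fun i _ => ?_
    obtain ⟨q, c, z, hz, hx⟩ := hexp (x i) t
    rw [hx, Pi.single_add, Pi.single_add]
    refine Submodule.add_mem _ (Submodule.add_mem _ ?_ ?_) ?_
    · refine Submodule.mem_sup_left ?_
      have h1 : (Pi.single i (toRX C q) : n → RX C) =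
          fun j => toRX C ((Pi.single i q : n → C[X]) j) := by
        ext j
        by_cases hij : j = i
        · subst hij
          simp
        · simp [Pi.single_eq_of_ne hij]
      rw [h1]
      exact hQpoly _
    · refine Submodule.mem_sup_right ?_
      have h1 : (Pi.single i (∑ j ∈ Finset.range t, c j • y ^ (j + 1)) : n → RX C) =
          ∑ j ∈ Finset.range t, c j • (Pi.single i (y ^ (j + 1)) : n → RX C) := by
        ext k
        by_cases hik : k = i
        · subst hik
          simp [Finset.sum_apply]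
        · simp [Finset.sum_apply, Pi.single_eq_of_ne hik]
      rw [h1]
      refine Submodule.sum_mem _ fun j hj => Submodule.smul_mem _ _ (Submodule.subset_span ?_)
      exact ⟨(i, ⟨j, Finset.mem_range.1 hj⟩), rfl⟩
    · refine Submodule.mem_sup_left (hQsmall _ fun j => ?_)
      by_cases hij : j = i
      · subst hij
        simpa using hz
      · rw [Pi.single_eq_of_ne hij]
        exact h0 _ _
  -- step 3
  have hmtop : ∀ (j : n) (w : RX C), w ∈ mRX C → ∀ d : RX C,
      (Pi.single j (d * w) : n → RX C) ∈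
        (IsLocalRing.maximalIdeal C) • (⊤ : Submodule C (n → RX C)) := by
    intro j w hw
    rw [mRX, Ideal.map, Ideal.span] at hw
    induction hw using Submodule.span_induction with
    | mem x hx =>
      intro d
      obtain ⟨μ, hμ, rfl⟩ := hx
      have h1 : (Pi.single j (d * ((toRX C).comp (Polynomial.C : C →+* C[X])) μ) : n → RX C) =
          μ • (Pi.single j d : n → RX C) := by
        ext k
        by_cases hjk : k = j
        · subst hjk
          simp only [Pi.single_eq_same, Pi.smul_apply, hsm, RingHom.comp_apply]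
          ring
        · simp only [Pi.single_eq_of_ne hjk, Pi.smul_apply, smul_zero]
      rw [h1]
      exact Submodule.smul_mem_smul hμ Submodule.mem_top
    | zero =>
      intro d
      rw [mul_zero, Pi.single_zero]
      exact Submodule.zero_mem _
    | add x x' _ _ ih ih' =>
      intro d
      rw [mul_add, Pi.single_add]
      exact Submodule.add_mem _ (ih d) (ih' d)
    | smul a x _ ih =>
      intro d
      rw [smul_eq_mul, ← mul_assoc]
      exact ih (d * a)
  have hQm : ∀ x : n → RX C, x ∈ Q ⊔ (IsLocalRing.maximalIdeal C) • (⊤ : Submodule C (n → RX C)) := by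
    intro x
    choose q z hz hx using fun i => hdiv (x i)
    have hz0 : ∀ j, z j ∈ Sg C 0 0 := fun j => hmono _ _ _ _ (by omega) _ (hz j)
    have h1 : x = ((fun j => toRX C (q j)) + Matrix.vecMul z γ') + (z - Matrix.vecMul z γ') := by
      ext j
      simp only [Pi.add_apply, Pi.sub_apply, hx j]
      ring
    rw [h1]
    refine Submodule.add_mem _ (Submodule.mem_sup_left ((hQmem _).2 ⟨q, z, hz0, rfl⟩))
      (Submodule.mem_sup_right ?_)
    rw [hsplit (z - Matrix.vecMul z γ')]
    refine Submodule.sum_mem _ fun j _ => ?_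
    have h2 : (z - Matrix.vecMul z γ') j ∈ mRX C := by
      have h3 : (z - Matrix.vecMul z γ') j =
          -∑ i, z i * (γ' i j - (1 : Matrix n n (RX C)) i j) := by
        have h4 : z j = ∑ i, z i * (1 : Matrix n n (RX C)) i j := by
          have := congrFun (Matrix.vecMul_one z) j
          rw [← this]
          rfl
        rw [Pi.sub_apply]
        show z j - ∑ i, z i * γ' i j = _
        conv_lhs => rw [h4]
        rw [← Finset.sum_sub_distrib, ← Finset.sum_neg_distrib]
        refine Finset.sum_congr rfl fun i _ => ?_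
        ring
      rw [h3]
      exact neg_mem (Submodule.sum_mem _ fun i _ => Ideal.mul_mem_left _ _ (hm i j))
    have h5 := hmtop j _ h2 1
    rwa [one_mul] at h5
  have hNQ : N ≤ Q := by
    refine Submodule.le_of_le_smul_of_le_jacobson_bot (I := IsLocalRing.maximalIdeal C) hNfg
      (IsLocalRing.maximalIdeal_le_jacobson _) ?_
    intro x _
    have h1 : (⊤ : Submodule C (n → RX C)) ≤ Q ⊔ N := fun x _ => hQN x
    have h2 : (IsLocalRing.maximalIdeal C) • (⊤ : Submodule C (n → RX C)) ≤
        Q ⊔ (IsLocalRing.maximalIdeal C) • N := by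
      refine (Submodule.smul_mono le_rfl h1).trans ?_
      rw [Submodule.smul_sup]
      exact sup_le_sup Submodule.smul_le_right le_rfl
    have h3 := hQm x
    exact (sup_le le_sup_left h2) h3
  intro x
  have h1 := hQN x
  rw [sup_eq_left.2 hNQ] at h1
  exact (hQmem _).1 h1

end Pool.Agent.Helper62.FU
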